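import Pool.Agent.Results.MP_15d263_co.Aligned

set_option autoImplicit false

/-!
# MP_15d263_co : every `T(x,y)` admits an idiomeric tiling of the plane

The problem file does not ask the squares of the tiles to lie on the fixed grid; shearing the
rows of squares gives an idiomeric tiling for every pair `(x, y)`.
-/

namespace Pool.Agent.Results.MP_15d263_co.AllPairs

open Pool.Agent.Results.MP_15d263_co.Aligned

/-- The reflection of the plane exchanging the two coordinates. -/
noncomputable def swapIso : Plane ≃ᵢ Plane where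
  toFun z := pt (z 1) (z 0)
  invFun z := pt (z 1) (z 0)
  left_inv z := by apply ext2 <;> simp
  right_inv z := by apply ext2 <;> simp
  isometry_toFun := by
    apply Isometry.of_dist_eq
    intro z w
    have h := dist_sq (pt (z 1) (z 0)) (pt (w 1) (w 0))
    have h' := dist_sq z w
    simp only [pt_zero, pt_one] at h
    have h2 : dist (pt (z 1) (z 0)) (pt (w 1) (w 0)) ^ 2 = dist z w ^ 2 := by
      rw [h, h']; ring
    exact (sq_eq_sq₀ dist_nonneg dist_nonneg).1 h2

theorem swap_apply (z : Plane) : swapIso z = pt (z 1) (z 0) := rfl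

theorem swap_sq (u v : ℝ) : swapIso '' sq (pt u v) = sq (pt v u) := by
  ext z
  constructor
  · rintro ⟨w, ⟨h0, h1⟩, rfl⟩
    rw [swap_apply]
    simp only [pt_zero, pt_one] at h0 h1
    exact ⟨by simpa using h1, by simpa using h0⟩
  · rintro ⟨h0, h1⟩
    simp only [pt_zero, pt_one] at h0 h1
    refine ⟨pt (z 1) (z 0), ⟨by simpa using h1, by simpa using h0⟩, ?_⟩
    rw [swap_apply]
    apply ext2 <;> simp

theorem swap_T (x : ℤ) : swapIso '' T x 0 = T 0 x := by
  rw [T, T, Set.image_union, swap_sq, swap_sq]

/-- Every `T(x,y)` with `max(|x|,|y|) ≥ 2` admits an idiomeric tiling of the plane. -/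
theorem result (x y : ℤ) (hxy : 2 ≤ max |x| |y|) :
    ∃ F : Set (Set Plane), IsTiling F ∧ Monohedral F (T x y) ∧ Idiomeric F := by
  by_cases hy : y = 0
  · subst hy
    have hx2 : 2 ≤ |x| := by simpa using hxy
    have hx0 : (x : ℝ) ≠ 0 := by
      intro h
      have : x = 0 := by exact_mod_cast h
      rw [this] at hx2
      norm_num at hx2
    have hxy' : 2 ≤ max |(0 : ℤ)| |x| := by simpa using hxy
    obtain ⟨h1, h2, h3⟩ := construction 0 x hxy' (-1 / x) 1 (by decide) (by
      push_cast
      field_simp
      ring)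
    refine ⟨_, h1, ?_, h3⟩
    intro t ht
    obtain ⟨g, hg⟩ := h2 t ht
    refine ⟨swapIso.trans g, ?_⟩
    rw [← hg, ← swap_T x, ← Set.image_comp]
    rfl
  · have hy0 : (y : ℝ) ≠ 0 := by exact_mod_cast hy
    obtain ⟨h1, h2, h3⟩ := construction x y hxy ((x - 1) / y) 1 (by decide) (by
      push_cast
      field_simp
      ring)
    exact ⟨_, h1, h2, h3⟩

end Pool.Agent.Results.MP_15d263_co.AllPairs
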